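import Mathlib

namespace Pool.Agent.Results.MP_4c0b8d_co.Larger

open Finset

/-- `𝓕` is two-sided intersecting: any two members meet, some two members are disjoint on the
first part `X₁ = Fin n₁`, and some two members are disjoint on the second part `X₂ = Fin n₂`. -/
def TwoSidedIntersecting {n₁ n₂ : ℕ} (𝓕 : Finset (Finset (Fin n₁ ⊕ Fin n₂))) : Prop :=
  (∀ F ∈ 𝓕, ∀ G ∈ 𝓕, (F ∩ G).Nonempty) ∧
  (∃ F ∈ 𝓕, ∃ G ∈ 𝓕, Disjoint F.toLeft G.toLeft) ∧
  (∃ F ∈ 𝓕, ∃ G ∈ 𝓕, Disjoint F.toRight G.toRight)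

/-- the number `A` of the problem -/
def boundA (n₁ n₂ k l : ℕ) : ℤ :=
  (((n₂ - 1).choose (l - 1) : ℤ) - ((n₂ - l - 1).choose (l - 1) : ℤ)) * (n₁.choose k : ℤ) + 1 +
    (n₁.choose k : ℤ) - ((n₁ - k).choose k : ℤ)

/-- the number `B` of the problem -/
def boundB (n₁ n₂ k l : ℕ) : ℤ :=
  (((n₁ - 1).choose (k - 1) : ℤ) - ((n₁ - k - 1).choose (k - 1) : ℤ)) * (n₂.choose l : ℤ) + 1 +
    (n₂.choose l : ℤ) - ((n₂ - l).choose l : ℤ)

lemma pair_form (a b k l : ℕ) (hk : 1 ≤ k) (hl : 2 ≤ l) (ha : 2 * k ≤ a) (hb : 2 * l + 1 ≤ b) :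
    ∃ P : Finset (Finset (Fin a) × Finset (Fin b)),
      (∀ p ∈ P, p.1.card = k ∧ p.2.card = l) ∧
      (∀ p ∈ P, ∀ q ∈ P, (p.1 ∩ q.1).Nonempty ∨ (p.2 ∩ q.2).Nonempty) ∧
      (∃ p ∈ P, ∃ q ∈ P, Disjoint p.1 q.1) ∧ (∃ p ∈ P, ∃ q ∈ P, Disjoint p.2 q.2) ∧
      boundA a b k l < (P.card : ℤ) := by
  classical
  obtain ⟨K, -, hK⟩ := exists_subset_card_eq (s := (univ : Finset (Fin a))) (n := k)
    (by rw [card_univ, Fintype.card_fin]; omega)
  obtain ⟨L, -, hL⟩ := exists_subset_card_eq (s := (univ : Finset (Fin b))) (n := l)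
    (by rw [card_univ, Fintype.card_fin]; omega)
  have hLc : (univ \ L : Finset (Fin b)).card = b - l := by
    rw [card_sdiff_of_subset (subset_univ L), card_univ, Fintype.card_fin, hL]
  have hKc : (univ \ K : Finset (Fin a)).card = a - k := by
    rw [card_sdiff_of_subset (subset_univ K), card_univ, Fintype.card_fin, hK]
  obtain ⟨x, hx⟩ : (univ \ L : Finset (Fin b)).Nonempty := by
    rw [← card_pos, hLc]; omega
  have hxL : x ∉ L := (mem_sdiff.mp hx).2
  let S : Finset (Fin b) → Finset (Finset (Fin b)) := fun Y => (powersetCard (l - 1) Y).image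
    (insert x)
  have hScard : ∀ Y : Finset (Fin b), x ∉ Y → (S Y).card = Y.card.choose (l - 1) := by
    intro Y hY
    have hinj : Set.InjOn (insert x) (powersetCard (l - 1) Y : Set (Finset (Fin b))) := by
      intro Z hZ Z' hZ' h
      rw [mem_coe, mem_powersetCard] at hZ hZ'
      have hxZ : x ∉ Z := fun h => hY (hZ.1 h)
      have hxZ' : x ∉ Z' := fun h => hY (hZ'.1 h)
      rw [← erase_insert hxZ, ← erase_insert hxZ', h]
    change ((powersetCard (l - 1) Y).image (insert x)).card = _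
    rw [card_image_of_injOn hinj, card_powersetCard]
  have hSmem : ∀ Y : Finset (Fin b), x ∉ Y → ∀ Z, Z ∈ S Y ↔ (x ∈ Z ∧ Z.card = l ∧
      Z.erase x ⊆ Y) := by
    intro Y hY Z
    simp only [S, mem_image, mem_powersetCard]
    constructor
    · rintro ⟨W, ⟨h1, h2⟩, rfl⟩
      have hxW : x ∉ W := fun h => hY (h1 h)
      refine ⟨mem_insert_self _ _, ?_, ?_⟩
      · rw [card_insert_of_notMem hxW, h2]; omega
      · rw [erase_insert hxW]; exact h1
    · rintro ⟨h1, h2, h3⟩
      refine ⟨Z.erase x, ⟨h3, ?_⟩, insert_erase h1⟩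
      rw [card_erase_of_mem h1, h2]
  let Y0 : Finset (Fin b) := univ.erase x
  let Y1 : Finset (Fin b) := (univ \ L).erase x
  have hY0 : x ∉ Y0 := notMem_erase _ _
  have hY1 : x ∉ Y1 := notMem_erase _ _
  have hY0c : Y0.card = b - 1 := by
    change (univ.erase x).card = _
    rw [card_erase_of_mem (mem_univ x), card_univ, Fintype.card_fin]
  have hY1c : Y1.card = b - l - 1 := by
    change ((univ \ L).erase x).card = _
    rw [card_erase_of_mem hx, hLc]
  let P0 : Finset (Finset (Fin a) × Finset (Fin b)) := powersetCard k univ ×ˢ S Y0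
  let D : Finset (Finset (Fin a) × Finset (Fin b)) := powersetCard k (univ \ K) ×ˢ S Y1
  have hP0 : ∀ p, p ∈ P0 ↔ (p.1.card = k ∧ p.2.card = l ∧ x ∈ p.2) := by
    intro p
    simp only [P0, mem_product, mem_powersetCard, subset_univ, true_and]
    rw [hSmem Y0 hY0]
    constructor
    · rintro ⟨h1, h2, h3, -⟩; exact ⟨h1, h3, h2⟩
    · rintro ⟨h1, h2, h3⟩
      exact ⟨h1, h3, h2, fun y hy => mem_erase.mpr ⟨(mem_erase.mp hy).1, mem_univ _⟩⟩
  have hD : ∀ p, p ∈ D ↔ (p.1.card = k ∧ p.2.card = l ∧ x ∈ p.2 ∧ Disjoint p.1 K ∧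
      Disjoint p.2 L) := by
    intro p
    simp only [D, mem_product, mem_powersetCard]
    rw [hSmem Y1 hY1]
    constructor
    · rintro ⟨⟨h1, h2⟩, h3, h4, h5⟩
      refine ⟨h2, h4, h3, ?_, ?_⟩
      · rw [Finset.disjoint_left]
        intro y hy
        exact (mem_sdiff.mp (h1 hy)).2
      · rw [Finset.disjoint_left]
        intro y hy
        by_cases hyx : y = x
        · rw [hyx]; exact hxL
        · exact (mem_sdiff.mp (mem_of_mem_erase (h5 (mem_erase.mpr ⟨hyx, hy⟩)))).2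
    · rintro ⟨h1, h2, h3, h4, h5⟩
      refine ⟨⟨?_, h1⟩, h3, h2, ?_⟩
      · intro y hy
        exact mem_sdiff.mpr ⟨mem_univ _, Finset.disjoint_left.mp h4 hy⟩
      · intro y hy
        rw [mem_erase] at hy
        exact mem_erase.mpr ⟨hy.1, mem_sdiff.mpr ⟨mem_univ _, Finset.disjoint_left.mp h5 hy.2⟩⟩
  have hDP : D ⊆ P0 := by
    intro p hp
    rw [hD] at hp
    rw [hP0]
    exact ⟨hp.1, hp.2.1, hp.2.2.1⟩
  have hKLn : (K, L) ∉ P0 \ D := by
    intro h
    have := ((hP0 _).mp (mem_sdiff.mp h).1).2.2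
    exact hxL this
  have hKne : K.Nonempty := by rw [← card_pos, hK]; omega
  have hLne : L.Nonempty := by rw [← card_pos, hL]; omega
  have hmeet : ∀ p ∈ P0 \ D, (p.1 ∩ K).Nonempty ∨ (p.2 ∩ L).Nonempty := by
    intro p hp
    rw [mem_sdiff] at hp
    by_contra hcon
    push Not at hcon
    apply hp.2
    rw [hD]
    have h0 := (hP0 p).mp hp.1
    refine ⟨h0.1, h0.2.1, h0.2.2, ?_, ?_⟩
    · rw [Finset.disjoint_iff_inter_eq_empty]; exact hcon.1
    · rw [Finset.disjoint_iff_inter_eq_empty]; exact hcon.2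
  refine ⟨insert (K, L) (P0 \ D), ?_, ?_, ?_, ?_, ?_⟩
  · intro p hp
    rw [mem_insert] at hp
    rcases hp with rfl | hp
    · exact ⟨hK, hL⟩
    · have := (hP0 p).mp (mem_sdiff.mp hp).1
      exact ⟨this.1, this.2.1⟩
  · intro p hp q hq
    rw [mem_insert] at hp hq
    rcases hp with rfl | hp
    · rcases hq with rfl | hq
      · left; simpa using hKne
      · rcases hmeet q hq with h | h
        · left; rw [inter_comm]; exact h
        · right; rw [inter_comm]; exact h
    · rcases hq with rfl | hq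
      · exact hmeet p hp
      · right
        exact ⟨x, mem_inter.mpr ⟨((hP0 p).mp (mem_sdiff.mp hp).1).2.2,
          ((hP0 q).mp (mem_sdiff.mp hq).1).2.2⟩⟩
  · -- disjoint on the left
    obtain ⟨K', hK'sub, hK'⟩ := exists_subset_card_eq (s := (univ \ K : Finset (Fin a))) (n := k)
      (by rw [hKc]; omega)
    obtain ⟨y0, hy0⟩ := hLne
    have hcard : (insert x (L.erase y0)).card = l := by
      rw [card_insert_of_notMem (fun h => hxL (mem_of_mem_erase h)), card_erase_of_mem hy0, hL]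
      omega
    refine ⟨(K', insert x (L.erase y0)), ?_, (K, L), mem_insert_self _ _, ?_⟩
    · apply mem_insert_of_mem
      rw [mem_sdiff, hP0, hD]
      refine ⟨⟨hK', hcard, mem_insert_self _ _⟩, ?_⟩
      rintro ⟨-, -, -, -, h⟩
      obtain ⟨z, hz⟩ : (L.erase y0).Nonempty := by
        rw [← card_pos, card_erase_of_mem hy0, hL]; omega
      exact Finset.disjoint_left.mp h (mem_insert_of_mem hz) (mem_of_mem_erase hz)
    · rw [Finset.disjoint_left]
      intro z hz
      exact (mem_sdiff.mp (hK'sub hz)).2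
  · -- disjoint on the right
    obtain ⟨Y, hYsub, hY⟩ := exists_subset_card_eq (s := Y1) (n := l - 1)
      (by rw [hY1c]; omega)
    have hxY : x ∉ Y := fun h => hY1 (hYsub h)
    refine ⟨(K, insert x Y), ?_, (K, L), mem_insert_self _ _, ?_⟩
    · apply mem_insert_of_mem
      rw [mem_sdiff, hP0, hD]
      refine ⟨⟨hK, ?_, mem_insert_self _ _⟩, ?_⟩
      · simp only
        rw [card_insert_of_notMem hxY, hY]; omega
      · rintro ⟨-, -, -, h, -⟩
        obtain ⟨z, hz⟩ := hKne
        exact Finset.disjoint_left.mp h hz hz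
    · rw [Finset.disjoint_left]
      intro z hz
      simp only [mem_insert] at hz
      rcases hz with rfl | hz
      · exact hxL
      · exact (mem_sdiff.mp (mem_of_mem_erase (hYsub hz))).2
  · -- the size
    have hc : (insert (K, L) (P0 \ D)).card + D.card = P0.card + 1 := by
      rw [card_insert_of_notMem hKLn, card_sdiff_of_subset hDP]
      have := card_le_card hDP
      omega
    have hP0c : P0.card = a.choose k * (b - 1).choose (l - 1) := by
      change (powersetCard k univ ×ˢ S Y0).card = _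
      rw [card_product, card_powersetCard, card_univ, Fintype.card_fin, hScard Y0 hY0, hY0c]
    have hDc : D.card = (a - k).choose k * (b - l - 1).choose (l - 1) := by
      change (powersetCard k (univ \ K) ×ˢ S Y1).card = _
      rw [card_product, card_powersetCard, hKc, hScard Y1 hY1, hY1c]
    rw [hP0c, hDc] at hc
    have h1 : (a - k).choose k < a.choose k := by
      obtain ⟨a', rfl⟩ : ∃ a', a = a' + 1 := ⟨a - 1, by omega⟩
      obtain ⟨k', rfl⟩ : ∃ k', k = k' + 1 := ⟨k - 1, by omega⟩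
      have h2 : (a' + 1 - (k' + 1)).choose (k' + 1) ≤ a'.choose (k' + 1) :=
        Nat.choose_le_choose _ (by omega)
      have h3 : 0 < a'.choose k' := Nat.choose_pos (by omega)
      have h5 : (a' + 1).choose (k' + 1) = a'.choose k' + a'.choose (k' + 1) :=
        Nat.choose_succ_succ' a' k'
      omega
    have h2 : 2 ≤ (b - l - 1).choose (l - 1) := by
      have h3 : l.choose (l - 1) ≤ (b - l - 1).choose (l - 1) := Nat.choose_le_choose _ (by omega)
      have h4 : l.choose (l - 1) = l := by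
        obtain ⟨l', rfl⟩ : ∃ l', l = l' + 1 := ⟨l - 1, by omega⟩
        simp
      omega
    have hcz : ((insert (K, L) (P0 \ D)).card : ℤ) +
        ((a - k).choose k : ℤ) * ((b - l - 1).choose (l - 1) : ℤ) =
        (a.choose k : ℤ) * ((b - 1).choose (l - 1) : ℤ) + 1 := by exact_mod_cast hc
    have h1z : (((a - k).choose k : ℕ) : ℤ) < (a.choose k : ℤ) := by exact_mod_cast h1
    have h2z : (2 : ℤ) ≤ ((b - l - 1).choose (l - 1) : ℤ) := by exact_mod_cast h2
    unfold boundA
    nlinarith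

/-- For all `k, l ≥ 2`, `n₁ ≥ 2k + 1` and `n₂ ≥ 2l + 1` there is a two-sided intersecting
family with more than `max (A, B)` members. -/
theorem result (k l n₁ n₂ : ℕ) (hk : 2 ≤ k) (hl : 2 ≤ l) (h₁ : 2 * k + 1 ≤ n₁)
    (h₂ : 2 * l + 1 ≤ n₂) :
    ∃ 𝓕 : Finset (Finset (Fin n₁ ⊕ Fin n₂)),
      (∀ F ∈ 𝓕, F.toLeft.card = k ∧ F.toRight.card = l) ∧ TwoSidedIntersecting 𝓕 ∧
      max (boundA n₁ n₂ k l) (boundB n₁ n₂ k l) < (𝓕.card : ℤ) := by
  classical
  rcases le_total (boundB n₁ n₂ k l) (boundA n₁ n₂ k l) with hAB | hAB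
  · obtain ⟨P, h1, h2, h3, h4, h5⟩ := pair_form n₁ n₂ k l (by omega) hl (by omega) h₂
    have hinj : Function.Injective
        (fun p : Finset (Fin n₁) × Finset (Fin n₂) => p.1.disjSum p.2) := by
      intro p q h
      have h' : p.1.disjSum p.2 = q.1.disjSum q.2 := h
      have hl' := congrArg Finset.toLeft h'
      have hr' := congrArg Finset.toRight h'
      rw [toLeft_disjSum, toLeft_disjSum] at hl'
      rw [toRight_disjSum, toRight_disjSum] at hr'
      exact Prod.ext hl' hr'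
    refine ⟨P.image (fun p => p.1.disjSum p.2), ?_, ⟨?_, ?_, ?_⟩, ?_⟩
    · intro F hF
      obtain ⟨p, hp, rfl⟩ := mem_image.mp hF
      rw [toLeft_disjSum, toRight_disjSum]
      exact h1 p hp
    · intro F hF G hG
      obtain ⟨p, hp, rfl⟩ := mem_image.mp hF
      obtain ⟨q, hq, rfl⟩ := mem_image.mp hG
      rcases h2 p hp q hq with ⟨z, hz⟩ | ⟨z, hz⟩
      · rw [mem_inter] at hz
        exact ⟨Sum.inl z, mem_inter.mpr ⟨inl_mem_disjSum.mpr hz.1, inl_mem_disjSum.mpr hz.2⟩⟩
      · rw [mem_inter] at hz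
        exact ⟨Sum.inr z, mem_inter.mpr ⟨inr_mem_disjSum.mpr hz.1, inr_mem_disjSum.mpr hz.2⟩⟩
    · obtain ⟨p, hp, q, hq, hd⟩ := h3
      refine ⟨_, mem_image_of_mem _ hp, _, mem_image_of_mem _ hq, ?_⟩
      rw [toLeft_disjSum, toLeft_disjSum]
      exact hd
    · obtain ⟨p, hp, q, hq, hd⟩ := h4
      refine ⟨_, mem_image_of_mem _ hp, _, mem_image_of_mem _ hq, ?_⟩
      rw [toRight_disjSum, toRight_disjSum]
      exact hd
    · rw [card_image_of_injective _ hinj, max_eq_left hAB]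
      exact h5
  · obtain ⟨P, h1, h2, h3, h4, h5⟩ := pair_form n₂ n₁ l k (by omega) hk (by omega) h₁
    have hinj : Function.Injective
        (fun p : Finset (Fin n₂) × Finset (Fin n₁) => p.2.disjSum p.1) := by
      intro p q h
      have h' : p.2.disjSum p.1 = q.2.disjSum q.1 := h
      have hl' := congrArg Finset.toLeft h'
      have hr' := congrArg Finset.toRight h'
      rw [toLeft_disjSum, toLeft_disjSum] at hl'
      rw [toRight_disjSum, toRight_disjSum] at hr'
      exact Prod.ext hr' hl'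
    refine ⟨P.image (fun p => p.2.disjSum p.1), ?_, ⟨?_, ?_, ?_⟩, ?_⟩
    · intro F hF
      obtain ⟨p, hp, rfl⟩ := mem_image.mp hF
      rw [toLeft_disjSum, toRight_disjSum]
      exact (h1 p hp).symm
    · intro F hF G hG
      obtain ⟨p, hp, rfl⟩ := mem_image.mp hF
      obtain ⟨q, hq, rfl⟩ := mem_image.mp hG
      rcases h2 p hp q hq with ⟨z, hz⟩ | ⟨z, hz⟩
      · rw [mem_inter] at hz
        exact ⟨Sum.inr z, mem_inter.mpr ⟨inr_mem_disjSum.mpr hz.1, inr_mem_disjSum.mpr hz.2⟩⟩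
      · rw [mem_inter] at hz
        exact ⟨Sum.inl z, mem_inter.mpr ⟨inl_mem_disjSum.mpr hz.1, inl_mem_disjSum.mpr hz.2⟩⟩
    · obtain ⟨p, hp, q, hq, hd⟩ := h4
      refine ⟨_, mem_image_of_mem _ hp, _, mem_image_of_mem _ hq, ?_⟩
      rw [toLeft_disjSum, toLeft_disjSum]
      exact hd
    · obtain ⟨p, hp, q, hq, hd⟩ := h3
      refine ⟨_, mem_image_of_mem _ hp, _, mem_image_of_mem _ hq, ?_⟩
      rw [toRight_disjSum, toRight_disjSum]
      exact hd
    · rw [card_image_of_injective _ hinj, max_eq_right hAB]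
      exact h5

end Pool.Agent.Results.MP_4c0b8d_co.Larger
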